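import Pool.Agent.Lib.Helper71.Integ.Abel2

/-!
# MP_dbca9e_al: non-abelian groups with abelian derived subgroup never have property (D)
-/

set_option autoImplicit false

namespace Pool.Agent.Results.MP_dbca9e_al.AbelianDerived

open Pool.Helper71.Integ

/-- No non-abelian finite group with abelian derived subgroup has property (D). Moreover every
non-trivial finite abelian group is the derived subgroup of a finite integrable group and of a
finite group which is not integrable. -/
theorem result :
    (∀ (G : Type) [Group G] [Finite G], (∃ a b : G, a * b ≠ b * a) →
      (∀ a b : commutator G, a * b = b * a) → ¬ PropertyD G) ∧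
    (∀ (K : Type) [CommGroup K] [Finite K], Nontrivial K →
      (∃ (H : Type) (_ : Group H), Finite H ∧ Nonempty (commutator H ≃* K) ∧ IsIntegrable H) ∧
      (∃ (H : Type) (_ : Group H), Finite H ∧ Nonempty (commutator H ≃* K) ∧
        ¬ IsIntegrable H)) :=
  ⟨fun G _ _ h1 h2 => not_propertyD_of_abelian_commutator G h1 h2,
    fun K _ _ _ => ⟨exists_integrable K, exists_not_integrable K⟩⟩

end Pool.Agent.Results.MP_dbca9e_al.AbelianDerived
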