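import Pool.Agent.Lib.H88D.Main

/-!
# MP_dbca9e_al: property (D) when the derived subgroup meets the centre
-/

set_option autoImplicit false

namespace Pool.Agent.Results.MP_dbca9e_al.CentralDerived

open Pool.Helper71.Integ

/-- (1) If the centre of the finite group `G` meets the derived subgroup non-trivially, then there is a finite group `H`
with `H'` isomorphic to `G'` which is not integrable. (2) Hence if some finite group `H` with `H'` isomorphic to `G'`
has this property, then `G` has property (D) if and only if `G'` is not the second derived subgroup of a finite group.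
(3) This applies to all non-abelian nilpotent groups. -/
theorem result :
    (∀ (G : Type) [Group G] [Finite G], Subgroup.center G ⊓ commutator G ≠ ⊥ →
      ∃ (H : Type) (_ : Group H), Finite H ∧ Nonempty (commutator H ≃* commutator G) ∧
        ¬ IsIntegrable H) ∧
    (∀ (G : Type) [Group G] [Finite G],
      (∃ (H : Type) (_ : Group H), Finite H ∧ Nonempty (commutator H ≃* commutator G) ∧
        Subgroup.center H ⊓ commutator H ≠ ⊥) →
      (PropertyD G ↔ ¬ ∃ (L : Type) (_ : Group L),
        Finite L ∧ Nonempty (commutator (commutator L) ≃* commutator G))) ∧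
    (∀ (G : Type) [Group G] [Finite G], Group.IsNilpotent G → (∃ a b : G, a * b ≠ b * a) →
      (PropertyD G ↔ ¬ ∃ (L : Type) (_ : Group L),
        Finite L ∧ Nonempty (commutator (commutator L) ≃* commutator G))) := by
  refine ⟨fun G _ _ h => Pool.H88D.exists_nonint' G h, fun G _ _ h => Pool.H88D.propertyD_iff G h,
    fun G _ _ hn hab => ?_⟩
  haveI := hn
  exact Pool.H88D.propertyD_iff G
    ⟨G, inferInstance, inferInstance, ⟨MulEquiv.refl _⟩, Pool.H88D.center_inf_commutator G hab⟩

end Pool.Agent.Results.MP_dbca9e_al.CentralDerived
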