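import Pool.Agent.Lib.H95I.OutAb
import Pool.Agent.Lib.H95I.ZGrp2

/-!
# MP_dbca9e_al: an exact criterion for property (D)
-/

set_option autoImplicit false

namespace Pool.Agent.Results.MP_dbca9e_al.ExactCriterion

open scoped commutatorElement
open Pool.Helper71.Integ Pool.H95I

/-- Every finite group `H` with an isomorphism `f` of `H'` onto `K` has `Z(H) ∩ H' = 1`, and its image in `Out K` has
the covering property. -/
def AllCovers (K : Type) [Group K] : Prop :=
  ∀ (H : Type) [Group H] [Finite H] (f : commutator H ≃* K),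
    Subgroup.center H ⊓ commutator H = ⊥ ∧ CoverLifts (outAct f).range

/-- The criterion for centreless `K`: no `M ≤ Aut K` with `M' = Inn K` is `N'` for some `N ≤ Aut K`, or the image in
`Out K` of every such `M` has the covering property. -/
def AutCriterion (K : Type) [Group K] : Prop :=
  (∀ M N : Subgroup (MulAut K), ⁅M, M⁆ = Inn K → ⁅N, N⁆ ≠ M) ∨
    ∀ M : Subgroup (MulAut K), ⁅M, M⁆ = Inn K → CoverLifts (M.map (mkOut K))

/-- The centre of `K` has a non-trivial cyclic section by characteristic subgroups of `K`. -/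
def CyclicSection (K : Type) [Group K] : Prop :=
  ∃ C₁ C₂ : Subgroup K, C₁.Characteristic ∧ C₂.Characteristic ∧ C₂ ≤ Subgroup.center K ∧
    ¬ C₂ ≤ C₁ ∧ ∃ c₀ ∈ C₂, ∀ c ∈ C₂, ∃ k : ℤ, c * (c₀ ^ k)⁻¹ ∈ C₁

/-- An exact criterion for property (D). Let `G` be a finite group and `K` a group isomorphic to `G'`. (1) `G` has (D)
if and only if `K` is not the second derived subgroup of a finite group, or every finite group `H` with `H'`
isomorphic to `K` has `Z(H) ∩ H' = 1` and its image in `Out K` has the covering property. (2) The criterion in terms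
of `Aut K` for centreless `K`. (3) The criterion when the centre of `K` has a cyclic characteristic section. (4) The
criterion for abelian `Out K`. (5) The covering property of a finite abelian subgroup `A` of `Δ`: a local sufficient
condition, a necessary condition on chains, and the exact condition when `A` has squarefree order or `Δ` is finite with
cyclic Sylow subgroups. -/
theorem result :
    (∀ (G K : Type) [Group G] [Finite G] [Group K], Nonempty (commutator G ≃* K) →
      (PropertyD G ↔ ¬ SecondDerived K ∨ AllCovers K) ∧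
      (Subgroup.center K = ⊥ → (PropertyD G ↔ AutCriterion K)) ∧
      (CyclicSection K → (PropertyD G ↔ ¬ SecondDerived K)) ∧
      ((∀ a b : Out K, a * b = b * a) →
        (PropertyD G ↔ ¬ SecondDerived K ∨ PerfectComplete K) ∧
        (commutator K ⊔ Subgroup.center K ≠ ⊤ → ¬ SecondDerived K))) ∧
    (∀ (Δ : Type) [Group Δ] (A : Subgroup Δ) [Finite A], (∀ a ∈ A, ∀ b ∈ A, a * b = b * a) →
      ((∃ N : Subgroup Δ, ⁅N, N⁆ = A ∧ ∀ p : ℕ, p.Prime → PCond A N p) → CoverLifts A) ∧
      (CoverLifts A → ∀ c : ℕ → Subgroup Δ, Monotone c → (∀ i, c i ≤ A) → ∀ r : ℕ,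
        ∃ N : Subgroup Δ, ⁅N, N⁆ = A ∧ ∀ i < r, ∀ n ∈ N, ∀ x ∈ c i, n * x * n⁻¹ ∈ c i) ∧
      (Squarefree (Nat.card A) → (CoverLifts A ↔ ∃ N : Subgroup Δ, ⁅N, N⁆ = A)) ∧
      (Finite Δ → IsZGroup Δ → (CoverLifts A ↔ A ≤ commutator Δ))) := by
  refine ⟨?_, fun Δ _ A _ hA => ⟨?_, ?_, coverLifts_iff_of_squarefree hA,
    fun _ hz => coverLifts_iff_le_of_isZGroup hz hA⟩⟩
  · rintro G K _ _ _ ⟨e⟩
    refine ⟨propertyD_iff e, fun hZ => propertyD_iff_centreless e hZ, ?_, ?_⟩
    · rintro ⟨C₁, C₂, h₁, h₂, hle, hne, c₀, hc₀', hc₀⟩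
      exact propertyD_iff_of_section e C₁ C₂ hle c₀ hc₀ hc₀' hne
    · intro hO
      refine ⟨propertyD_iff_of_out_comm e hO, fun hK => ?_⟩
      exact not_secondDerived_of_out_comm (fun a b => by
        rw [← mkOut_eq_one, map_commutatorElement, commutatorElement_eq_one_iff_mul_comm]
        exact hO _ _) hK
  · rintro ⟨N, hN, hp⟩
    exact coverLifts_of_pcond hN hp
  · intro h c hc hcA r
    exact h.chain hA c hc hcA r

end Pool.Agent.Results.MP_dbca9e_al.ExactCriterion
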