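import Pool.Agent.Lib.Helper71.Integ.Complete

/-!
# MP_dbca9e_al: groups with perfect derived subgroup
-/

set_option autoImplicit false

namespace Pool.Agent.Results.MP_dbca9e_al.PerfectDerived

open Pool.Helper71.Integ

/-- Let `G` be a finite group whose derived subgroup `K` is perfect. If `K` has trivial centre and
only inner automorphisms then `G` has property (D). If `G` has property (D) then `Out K` is a
perfect group of odd order, and `K` has trivial centre if `Out K` is trivial. Hence, if `Out K` is
solvable or of even order, `G` has (D) if and only if `K` has trivial centre and only inner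
automorphisms. -/
theorem result (G : Type) [Group G] [Finite G] (hG : commutator (commutator G) = ⊤) :
    ((Subgroup.center (commutator G) = ⊥ ∧
      ∀ θ : MulAut (commutator G), ∃ k, ∀ x, θ x = k * x * k⁻¹) → PropertyD G) ∧
    (PropertyD G → commutator (Out (commutator G)) = ⊤ ∧ Odd (Nat.card (Out (commutator G))) ∧
      ((∀ θ : MulAut (commutator G), ∃ k, ∀ x, θ x = k * x * k⁻¹) →
        Subgroup.center (commutator G) = ⊥)) ∧
    (Group.IsSolvable (Out (commutator G)) ∨ Even (Nat.card (Out (commutator G))) →
      (PropertyD G ↔ Subgroup.center (commutator G) = ⊥ ∧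
        ∀ θ : MulAut (commutator G), ∃ k, ∀ x, θ x = k * x * k⁻¹)) :=
  ⟨fun h => propertyD_of_complete hG h.1 h.2,
    fun hD => ⟨(out_perfect_odd hG hD).1, (out_perfect_odd hG hD).2,
      center_eq_bot_of_propertyD hG hD⟩,
    fun h => propertyD_iff_of_perfect hG h⟩

end Pool.Agent.Results.MP_dbca9e_al.PerfectDerived
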